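import Mathlib

/-!
# The LL-domination game number can exceed `2 γ_Zg + 1`

For every `m` there is a finite connected graph (without isolated vertices) with
`γ_Zg ≤ 2m+1` and `γ_LLg ≥ 6m+1`.  With `m = 2` this gives `γ_Zg ≤ 5`, `γ_LLg ≥ 13`.
-/

namespace Pool.Agent.Results.MP_4d264a_co.LLGameExceedsTwiceZ

/-- A two-player game on vertex sets.  `Ends legal next k d A` says: from the position `A`
(with Dominator to move if `d = true`, Staller to move if `d = false`), Dominator can make
the game end (no legal move is left) after at most `k` further moves. -/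
def Ends {V : Type} (legal : Set V → V → Prop) (next : Set V → V → Set V) :
    ℕ → Bool → Set V → Prop
  | 0, _, A => ∀ v, ¬ legal A v
  | k + 1, true, A => (∀ v, ¬ legal A v) ∨ ∃ v, legal A v ∧ Ends legal next k false (next A v)
  | k + 1, false, A => ∀ v, legal A v → Ends legal next k true (next A v)

/-- Z-game: `v` is legal iff `N(v)` is not contained in the union `C` of the closed
neighbourhoods of the vertices chosen so far. -/
def zLegal {V : Type} (G : SimpleGraph V) (C : Set V) (v : V) : Prop :=
  ¬ G.neighborSet v ⊆ C

/-- Z-game: choosing `v` adds the closed neighbourhood of `v`. -/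
def zNext {V : Type} (G : SimpleGraph V) (C : Set V) (v : V) : Set V :=
  C ∪ insert v (G.neighborSet v)

/-- LL-game: `v` is legal iff `N[v]` is not contained in the union `A` of the open
neighbourhoods of the vertices chosen so far. -/
def llLegal {V : Type} (G : SimpleGraph V) (A : Set V) (v : V) : Prop :=
  ¬ insert v (G.neighborSet v) ⊆ A

/-- LL-game: choosing `v` adds the open neighbourhood of `v`. -/
def llNext {V : Type} (G : SimpleGraph V) (A : Set V) (v : V) : Set V :=
  A ∪ G.neighborSet v

/-- The Z-domination game number: Dominator starts. -/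
noncomputable def zNumber {V : Type} (G : SimpleGraph V) : ℕ :=
  sInf {k | Ends (zLegal G) (zNext G) k true ∅}

/-- The LL-domination game number: Dominator starts. -/
noncomputable def llNumber {V : Type} (G : SimpleGraph V) : ℕ :=
  sInf {k | Ends (llLegal G) (llNext G) k true ∅}

/-! ### The LL-game can always be ended by Dominator -/

theorem ll_finite {V : Type} [Finite V] (G : SimpleGraph V) (hG : ∀ v, ∃ w, G.Adj v w) :
    ∀ (n : ℕ) (A : Set V), (Aᶜ).ncard ≤ n → Ends (llLegal G) (llNext G) (2 * n) true A := by
  intro n
  induction n with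
  | zero =>
    intro A hA
    have h0 : Aᶜ = ∅ := by
      have : (Aᶜ).ncard = 0 := by omega
      exact (Set.ncard_eq_zero (Set.toFinite _)).1 this
    have hu : A = Set.univ := Set.compl_empty_iff.1 h0
    intro v hv
    apply hv
    rw [hu]
    exact Set.subset_univ _
  | succ n ih =>
    intro A hA
    show Ends (llLegal G) (llNext G) ((2 * n + 1) + 1) true A
    by_cases hu : A = Set.univ
    · left
      intro v hv
      apply hv
      rw [hu]
      exact Set.subset_univ _
    · right
      obtain ⟨x, hx⟩ := (Set.ne_univ_iff_exists_notMem A).1 hu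
      obtain ⟨w, hw⟩ := hG x
      refine ⟨w, ?_, ?_⟩
      · intro hsub
        exact hx (hsub (Set.mem_insert_of_mem _ (by
          rw [SimpleGraph.mem_neighborSet]; exact hw.symm)))
      · show ∀ v, llLegal G (llNext G A w) v →
          Ends (llLegal G) (llNext G) (2 * n) true (llNext G (llNext G A w) v)
        intro v _
        apply ih
        have hss : (llNext G (llNext G A w) v)ᶜ ⊂ Aᶜ := by
          refine (Set.ssubset_iff_of_subset ?_).2 ⟨x, hx, ?_⟩
          · intro y hy hyA
            exact hy (Or.inl (Or.inl hyA))
          · intro hxc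
            exact hxc (Or.inl (Or.inr (by
              rw [SimpleGraph.mem_neighborSet]; exact hw.symm)))
        have := Set.ncard_lt_ncard hss (Set.toFinite _)
        omega

/-- The Z-game always ends, after at most as many moves as there are undominated vertices. -/
theorem z_finite {V : Type} [Finite V] (G : SimpleGraph V) :
    ∀ (n : ℕ) (A : Set V) (d : Bool), (Aᶜ).ncard ≤ n →
      Ends (zLegal G) (zNext G) n d A := by
  intro n
  induction n with
  | zero =>
    intro A d hA v hv
    have h0 : Aᶜ = ∅ := by
      have : (Aᶜ).ncard = 0 := by omega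
      exact (Set.ncard_eq_zero (Set.toFinite _)).1 this
    have hu : A = Set.univ := Set.compl_empty_iff.1 h0
    apply hv
    rw [hu]
    exact Set.subset_univ _
  | succ n ih =>
    intro A d hA
    have step : ∀ v, zLegal G A v → ((zNext G A v)ᶜ).ncard ≤ n := by
      intro v hv
      obtain ⟨x, hx, hxA⟩ := Set.not_subset.1 hv
      have hss : (zNext G A v)ᶜ ⊂ Aᶜ := by
        refine (Set.ssubset_iff_of_subset ?_).2 ⟨x, hxA, ?_⟩
        · intro y hy hyA
          exact hy (Or.inl hyA)
        · intro hxc
          exact hxc (Or.inr (Or.inr hx))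
      have := Set.ncard_lt_ncard hss (Set.toFinite _)
      omega
    cases d with
    | false =>
      intro v hv
      exact ih _ _ (step v hv)
    | true =>
      by_cases hno : ∀ v, ¬ zLegal G A v
      · exact Or.inl hno
      · push Not at hno
        obtain ⟨v, hv⟩ := hno
        exact Or.inr ⟨v, hv, ih _ _ (step v hv)⟩

/-! ### The graph -/

/-- Vertices: `w i p s` (the `i`-th cocktail party graph), `b i p s` (attached to `w i p s`,
to `e i` and to the hub `z`), `e i`, the hub `z` and its leaf `l`. -/
inductive Vx (m r : ℕ) : Type
  | w (i : Fin m) (p : Fin r) (s : Bool)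
  | b (i : Fin m) (p : Fin r) (s : Bool)
  | e (i : Fin m)
  | z
  | l
  deriving DecidableEq, Fintype

variable {m r : ℕ}

/-- Adjacency. -/
def adj : Vx m r → Vx m r → Prop
  | .w i p _, .w j q _ => i = j ∧ p ≠ q
  | .w i p s, .b j q t => i = j ∧ p = q ∧ s = t
  | .b i p s, .w j q t => i = j ∧ p = q ∧ s = t
  | .b i _ _, .e j => i = j
  | .e i, .b j _ _ => i = j
  | .b _ _ _, .z => True
  | .z, .b _ _ _ => True
  | .z, .l => True
  | .l, .z => True
  | _, _ => False

theorem adj_symm (x y : Vx m r) (h : adj x y) : adj y x := by
  cases x <;> cases y <;> simp_all [adj]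
  exact fun h' => h.2 h'.symm

/-- The graph. -/
def Gr (m r : ℕ) : SimpleGraph (Vx m r) where
  Adj := adj
  symm := ⟨fun x y h => adj_symm x y h⟩
  loopless := ⟨fun x h => by cases x <;> simp [adj] at h⟩

@[simp] theorem Gr_adj (x y : Vx m r) : (Gr m r).Adj x y ↔ adj x y := Iff.rfl

theorem mem_nb (x y : Vx m r) : y ∈ (Gr m r).neighborSet x ↔ adj x y := Iff.rfl

theorem noIso (hr : 2 ≤ r) (v : Vx m r) : ∃ w, (Gr m r).Adj v w := by
  cases v with
  | w i p s => exact ⟨.b i p s, by simp [adj]⟩
  | b i p s => exact ⟨.z, by simp [adj]⟩
  | e i => exact ⟨.b i ⟨0, by omega⟩ true, by simp [adj]⟩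
  | z => exact ⟨.l, by simp [adj]⟩
  | l => exact ⟨.z, by simp [adj]⟩

theorem conn (hr : 2 ≤ r) : (Gr m r).Connected := by
  have hz : ∀ v : Vx m r, (Gr m r).Reachable .z v := by
    intro v
    have hb : ∀ i p s, (Gr m r).Adj .z (.b i p s) := by
      intro i p s; simp [adj]
    cases v with
    | w i p s =>
      have h2 : (Gr m r).Adj (.b i p s) (.w i p s) := by simp [adj]
      exact (hb i p s).reachable.trans h2.reachable
    | b i p s => exact (hb i p s).reachable
    | e i =>
      have h2 : (Gr m r).Adj (.b i ⟨0, by omega⟩ true) (.e i) := by simp [adj]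
      exact (hb i _ _).reachable.trans h2.reachable
    | z => exact SimpleGraph.Reachable.refl _
    | l =>
      have h2 : (Gr m r).Adj .z .l := by simp [adj]
      exact h2.reachable
  have : Nonempty (Vx m r) := ⟨.z⟩
  exact ⟨fun u v => (hz u).symm.trans (hz v)⟩

/-! ### The Z-game -/

/-- All vertices outside the copies `i ∈ I` (restricted to the `w`- and `e`-vertices). -/
def CI (I : Finset (Fin m)) : Set (Vx m r) :=
  {v | match v with
    | .w i _ _ => i ∉ I
    | .e i => i ∉ I
    | _ => True}

@[simp] theorem CI_w (I : Finset (Fin m)) (i : Fin m) (p : Fin r) (s : Bool) :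
    Vx.w i p s ∈ (CI I : Set (Vx m r)) ↔ i ∉ I := Iff.rfl
@[simp] theorem CI_e (I : Finset (Fin m)) (i : Fin m) :
    Vx.e i ∈ (CI I : Set (Vx m r)) ↔ i ∉ I := Iff.rfl
@[simp] theorem CI_b (I : Finset (Fin m)) (i : Fin m) (p : Fin r) (s : Bool) :
    Vx.b i p s ∈ (CI I : Set (Vx m r)) ↔ True := Iff.rfl
@[simp] theorem CI_z (I : Finset (Fin m)) : Vx.z ∈ (CI I : Set (Vx m r)) ↔ True := Iff.rfl
@[simp] theorem CI_l (I : Finset (Fin m)) : Vx.l ∈ (CI I : Set (Vx m r)) ↔ True := Iff.rfl

theorem exists_ne_fin (hr : 2 ≤ r) (p : Fin r) : ∃ q : Fin r, q ≠ p := by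
  by_cases h : p = ⟨0, by omega⟩
  · exact ⟨⟨1, by omega⟩, by rw [h]; simp [Fin.ext_iff]⟩
  · exact ⟨⟨0, by omega⟩, fun h' => h h'.symm⟩

theorem z_strategy (hr : 2 ≤ r) : ∀ (n : ℕ) (I : Finset (Fin m)), I.card = n →
    Ends (zLegal (Gr m r)) (zNext (Gr m r)) (2 * n) false (CI I) := by
  intro n
  induction n with
  | zero =>
    intro I hI v hv
    apply hv
    have hI0 : I = ∅ := Finset.card_eq_zero.1 hI
    subst hI0
    intro x _
    cases x <;> simp
  | succ n ih =>
    intro I hI
    show ∀ v, zLegal (Gr m r) (CI I) v →
      Ends (zLegal (Gr m r)) (zNext (Gr m r)) (2 * n + 1) true (zNext (Gr m r) (CI I) v)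
    intro v hv
    cases v with
    | w i p s =>
      have hi : i ∈ I := by
        by_contra hi
        apply hv
        intro x hx
        cases x <;> simp_all [adj]
      right
      refine ⟨.b i p (!s), ?_, ?_⟩
      · intro hsub
        have := hsub (show Vx.w i p (!s) ∈ _ by simp [adj])
        simp [zNext, adj, hi] at this
      · have heq : zNext (Gr m r) (zNext (Gr m r) (CI I) (.w i p s)) (.b i p (!s))
            = CI (I.erase i) := by
          ext x
          cases x with
          | w j q t =>
            simp only [zNext, Set.mem_union, Set.mem_insert_iff, mem_nb, adj, CI_w,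
              Finset.mem_erase, Vx.w.injEq, reduceCtorEq, false_or]
            by_cases hji : j = i
            · subst hji
              by_cases hqp : q = p
              · subst hqp
                cases s <;> cases t <;> simp
              · simp [hqp, Ne.symm hqp]
            · simp [hji, Ne.symm hji]
          | b j q t => simp [zNext]
          | e j =>
            simp only [zNext, Set.mem_union, Set.mem_insert_iff, mem_nb, adj, CI_e,
              Finset.mem_erase, reduceCtorEq, false_or]
            by_cases hji : j = i
            · subst hji; simp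
            · simp [hji, Ne.symm hji]
          | z => simp [zNext]
          | l => simp [zNext]
        rw [heq]
        apply ih
        rw [Finset.card_erase_of_mem hi]
        omega
    | b i p s =>
      have hi : i ∈ I := by
        by_contra hi
        apply hv
        intro x hx
        cases x <;> simp_all [adj]
      right
      obtain ⟨q0, hq0⟩ := exists_ne_fin hr p
      refine ⟨.w i p (!s), ?_, ?_⟩
      · intro hsub
        have := hsub (show Vx.w i q0 true ∈ _ by simp [adj, Ne.symm hq0])
        simp [zNext, adj, hi, Ne.symm hq0] at this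
      · have heq : zNext (Gr m r) (zNext (Gr m r) (CI I) (.b i p s)) (.w i p (!s))
            = CI (I.erase i) := by
          ext x
          cases x with
          | w j q t =>
            simp only [zNext, Set.mem_union, Set.mem_insert_iff, mem_nb, adj, CI_w,
              Finset.mem_erase, Vx.w.injEq, reduceCtorEq, false_or]
            by_cases hji : j = i
            · subst hji
              by_cases hqp : q = p
              · subst hqp
                cases s <;> cases t <;> simp
              · simp [hqp, Ne.symm hqp]
            · simp [hji, Ne.symm hji]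
          | b j q t => simp [zNext]
          | e j =>
            simp only [zNext, Set.mem_union, Set.mem_insert_iff, mem_nb, adj, CI_e,
              Finset.mem_erase, reduceCtorEq, false_or]
            by_cases hji : j = i
            · subst hji; simp
            · simp [hji, Ne.symm hji]
          | z => simp [zNext]
          | l => simp [zNext]
        rw [heq]
        apply ih
        rw [Finset.card_erase_of_mem hi]
        omega
    | e i =>
      exfalso
      apply hv
      intro x hx
      cases x <;> simp_all [adj]
    | z =>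
      exfalso
      apply hv
      intro x hx
      cases x <;> simp_all [adj]
    | l =>
      exfalso
      apply hv
      intro x hx
      cases x <;> simp_all [adj]

theorem z_upper (hr : 2 ≤ r) : zNumber (Gr m r) ≤ 2 * m + 1 := by
  apply Nat.sInf_le
  show Ends (zLegal (Gr m r)) (zNext (Gr m r)) (2 * m + 1) true ∅
  right
  refine ⟨.z, ?_, ?_⟩
  · intro hsub
    have := hsub (show Vx.l ∈ _ by simp [adj])
    simp at this
  · have heq : zNext (Gr m r) ∅ .z = CI Finset.univ := by
      ext x
      cases x <;> simp [zNext, adj]
    rw [heq]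
    exact z_strategy hr m _ (by simp)

/-! ### The LL-game -/

open Classical in
/-- Rest of the `i`-th cocktail party graph: `0` if it is totally dominated, `2` if every pair
has an undominated vertex, `1` otherwise. -/
noncomputable def rho (A : Set (Vx m r)) (i : Fin m) : ℕ :=
  if (∀ p s, Vx.w i p s ∈ A) then 0 else if (∀ p, ∃ s, Vx.w i p s ∉ A) then 2 else 1

open Classical in
/-- Contribution of the vertex `e i`. -/
noncomputable def ep (A : Set (Vx m r)) (i : Fin m) : ℕ := if Vx.e i ∈ A then 0 else 1

open Classical in
/-- The potential: a lower bound for the number of moves Dominator still has to make. -/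
noncomputable def pot (A : Set (Vx m r)) : ℕ :=
  (∑ i : Fin m, (ep A i + rho A i)) + (if Vx.l ∈ A then 0 else 1)

theorem rho_congr {A B : Set (Vx m r)} {i : Fin m}
    (h : ∀ p s, (Vx.w i p s ∈ A ↔ Vx.w i p s ∈ B)) : rho A i = rho B i := by
  have h1 : (∀ p s, Vx.w i p s ∈ A) ↔ (∀ p s, Vx.w i p s ∈ B) :=
    forall_congr' fun p => forall_congr' fun s => h p s
  have h2 : (∀ p, ∃ s, Vx.w i p s ∉ A) ↔ (∀ p, ∃ s, Vx.w i p s ∉ B) :=
    forall_congr' fun p => exists_congr fun s => not_congr (h p s)
  unfold rho
  by_cases c1 : (∀ p s, Vx.w i p s ∈ A)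
  · rw [if_pos c1, if_pos (h1.1 c1)]
  · rw [if_neg c1, if_neg (fun h => c1 (h1.2 h))]
    by_cases c2 : (∀ p, ∃ s, Vx.w i p s ∉ A)
    · rw [if_pos c2, if_pos (h2.1 c2)]
    · rw [if_neg c2, if_neg (fun h => c2 (h2.2 h))]

theorem ep_congr {A B : Set (Vx m r)} {i : Fin m} (h : Vx.e i ∈ A ↔ Vx.e i ∈ B) :
    ep A i = ep B i := by
  unfold ep
  by_cases c : Vx.e i ∈ A
  · rw [if_pos c, if_pos (h.1 c)]
  · rw [if_neg c, if_neg (fun h' => c (h.2 h'))]

theorem rho_pos {A : Set (Vx m r)} {i : Fin m} {p : Fin r} {s : Bool} (h : Vx.w i p s ∉ A) :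
    1 ≤ rho A i := by
  unfold rho
  rw [if_neg (fun h' => h (h' p s))]
  split_ifs <;> omega

theorem rho_two (hr : 2 ≤ r) {A : Set (Vx m r)} {i : Fin m}
    (h : ∀ p, ∃ s, Vx.w i p s ∉ A) : rho A i = 2 := by
  unfold rho
  have h0 : ¬ ∀ p s, Vx.w i p s ∈ A := by
    intro h'
    obtain ⟨s, hs⟩ := h ⟨0, by omega⟩
    exact hs (h' _ _)
  rw [if_neg h0, if_pos h]

theorem rho_le_two (A : Set (Vx m r)) (i : Fin m) : rho A i ≤ 2 := by
  unfold rho; split_ifs <;> omega

theorem rho_le_one {A : Set (Vx m r)} {i : Fin m}
    (h : ¬ ∀ p, ∃ s, Vx.w i p s ∉ A) : rho A i ≤ 1 := by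
  unfold rho; rw [if_neg h]; split_ifs <;> omega

/-- The invariant after `h` moves. -/
structure Inv (A : Set (Vx m r)) (h : ℕ) : Prop where
  closed : ∀ i, Vx.e i ∉ A → ∀ p s, Vx.w i p s ∈ A → Vx.w i p (!s) ∈ A
  few : ∀ i, (∀ p, ∃ s, Vx.w i p s ∉ A) →
    Set.ncard {x : Fin r × Bool | Vx.w i x.1 x.2 ∈ A} ≤ h

theorem mem_llNext (A : Set (Vx m r)) (v x : Vx m r) :
    x ∈ llNext (Gr m r) A v ↔ x ∈ A ∨ adj v x := Iff.rfl

theorem inv_step (hr : 2 ≤ r) {A : Set (Vx m r)} {h : ℕ} (hI : Inv A h) (v : Vx m r) :
    Inv (llNext (Gr m r) A v) (h + 1) := by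
  constructor
  · intro i hi p s hp
    rw [mem_llNext] at hi hp ⊢
    push Not at hi
    rcases hp with hp | hp
    · left; exact hI.closed i hi.1 p s hp
    · right
      cases v <;> simp_all [adj]
  · intro i hi
    have hi' : ∀ p, ∃ s, Vx.w i p s ∉ A := by
      intro p
      obtain ⟨s, hs⟩ := hi p
      exact ⟨s, fun h' => hs (Or.inl h')⟩
    have hA := hI.few i hi'
    have key : ∀ q t, (∀ x : Fin r × Bool, adj v (Vx.w i x.1 x.2) → x = (q, t)) →
        Set.ncard {x : Fin r × Bool | Vx.w i x.1 x.2 ∈ llNext (Gr m r) A v} ≤ h + 1 := by
      intro q t hqt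
      have hsub : {x : Fin r × Bool | Vx.w i x.1 x.2 ∈ llNext (Gr m r) A v} ⊆
          insert (q, t) {x : Fin r × Bool | Vx.w i x.1 x.2 ∈ A} := by
        intro x hx
        rcases hx with hx | hx
        · exact Or.inr hx
        · exact Or.inl (hqt x hx)
      have h1 := Set.ncard_le_ncard hsub (Set.toFinite _)
      have h2 := Set.ncard_insert_le (q, t) {x : Fin r × Bool | Vx.w i x.1 x.2 ∈ A}
      omega
    cases v with
    | w j p s =>
      by_cases hj : j = i
      · exfalso
        subst hj
        obtain ⟨q, hq⟩ := exists_ne_fin hr p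
        obtain ⟨t, ht⟩ := hi q
        exact ht (Or.inr (by rw [mem_nb]; simp [adj, Ne.symm hq]))
      · exact key ⟨0, by omega⟩ true (by intro x hx; simp [adj, hj] at hx)
    | b j p s =>
      exact key p s (by
        intro x hx
        simp only [adj] at hx
        obtain ⟨_, h2, h3⟩ := hx
        rw [h2, h3])
    | e j => exact key ⟨0, by omega⟩ true (by intro x hx; simp [adj] at hx)
    | z => exact key ⟨0, by omega⟩ true (by intro x hx; simp [adj] at hx)
    | l => exact key ⟨0, by omega⟩ true (by intro x hx; simp [adj] at hx)

/-- One move lowers the potential by at most one. -/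
theorem pot_step (hr : 2 ≤ r) {A : Set (Vx m r)} {h : ℕ} (hI : Inv A h) (v : Vx m r) :
    pot A ≤ pot (llNext (Gr m r) A v) + 1 := by
  classical
  -- a move in the copy `i`
  have main : ∀ i : Fin m,
      (∀ j, j ≠ i → ep A j = ep (llNext (Gr m r) A v) j ∧ rho A j = rho (llNext (Gr m r) A v) j) →
      (ep A i + rho A i ≤ ep (llNext (Gr m r) A v) i + rho (llNext (Gr m r) A v) i + 1) →
      (Vx.l ∈ llNext (Gr m r) A v → Vx.l ∈ A) →
      pot A ≤ pot (llNext (Gr m r) A v) + 1 := by
    intro i hj hi hl
    unfold pot
    have h1 : ∑ j : Fin m, (ep A j + rho A j) ≤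
        ∑ j : Fin m, ((ep (llNext (Gr m r) A v) j + rho (llNext (Gr m r) A v) j) +
          if j = i then 1 else 0) := by
      apply Finset.sum_le_sum
      intro j _
      by_cases hji : j = i
      · subst hji; simpa using hi
      · rw [(hj j hji).1, (hj j hji).2]; simp
    rw [Finset.sum_add_distrib (g := fun j => if j = i then 1 else 0)] at h1
    rw [Finset.sum_ite_eq' Finset.univ i] at h1
    simp only [Finset.mem_univ, if_true] at h1
    by_cases hl1 : Vx.l ∈ A
    · rw [if_pos hl1]; omega
    · rw [if_neg hl1, if_neg (fun h' => hl1 (hl h'))]; omega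
  cases v with
  | w i p s =>
    apply main i
    · intro j hj
      constructor
      · apply ep_congr; rw [mem_llNext]; simp [adj]
      · apply rho_congr; intro q t; rw [mem_llNext]; simp [adj, Ne.symm hj]
    · have h1 : ep A i = ep (llNext (Gr m r) A (.w i p s)) i := by
        apply ep_congr; rw [mem_llNext]; simp [adj]
      have h2 : rho A i ≤ rho (llNext (Gr m r) A (.w i p s)) i + 1 := by
        by_cases hall : ∀ q, ∃ t, Vx.w i q t ∉ A
        · obtain ⟨t, ht⟩ := hall p
          have : Vx.w i p t ∉ llNext (Gr m r) A (.w i p s) := by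
            rw [mem_llNext]; simp [adj, ht]
          have := rho_pos this
          have := rho_le_two A i
          omega
        · have := rho_le_one hall
          omega
      omega
    · intro hl; rw [mem_llNext] at hl; simpa [adj] using hl
  | b i p s =>
    apply main i
    · intro j hj
      constructor
      · apply ep_congr; rw [mem_llNext]; simp [adj, Ne.symm hj]
      · apply rho_congr; intro q t; rw [mem_llNext]; simp [adj, Ne.symm hj]
    · by_cases he : Vx.e i ∈ A
      · have h1 : ep A i = 0 := by unfold ep; rw [if_pos he]
        have h2 : rho A i ≤ rho (llNext (Gr m r) A (.b i p s)) i + 1 := by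
          by_cases hall : ∀ q, ∃ t, Vx.w i q t ∉ A
          · obtain ⟨q, hq⟩ := exists_ne_fin hr p
            obtain ⟨t, ht⟩ := hall q
            have : Vx.w i q t ∉ llNext (Gr m r) A (.b i p s) := by
              rw [mem_llNext]; simp [adj, ht, Ne.symm hq]
            have := rho_pos this
            have := rho_le_two A i
            omega
          · have := rho_le_one hall
            omega
        omega
      · have h1 : ep A i = 1 := by unfold ep; rw [if_neg he]
        have hop : ∀ q t, Vx.w i q t ∉ A → Vx.w i q (!t) ∉ A := by
          intro q t hq hq'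
          have := hI.closed i he q (!t) hq'
          rw [Bool.not_not] at this
          exact hq this
        have h2 : rho A i ≤ rho (llNext (Gr m r) A (.b i p s)) i := by
          by_cases hall : ∀ q, ∃ t, Vx.w i q t ∉ A
          · have : rho (llNext (Gr m r) A (.b i p s)) i = 2 := by
              apply rho_two hr
              intro q
              obtain ⟨t, ht⟩ := hall q
              by_cases hqp : q = p
              · subst hqp
                by_cases hts : t = s
                · subst hts
                  exact ⟨!t, by rw [mem_llNext]; simp [adj, hop q t ht]⟩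
                · exact ⟨t, by rw [mem_llNext]; simp [adj, ht, Ne.symm hts]⟩
              · exact ⟨t, by rw [mem_llNext]; simp [adj, ht, Ne.symm hqp]⟩
            rw [this]; exact rho_le_two A i
          · have h1' := rho_le_one hall
            by_cases hz : ∀ q t, Vx.w i q t ∈ A
            · have : rho A i = 0 := by unfold rho; rw [if_pos hz]
              omega
            · push Not at hz
              obtain ⟨q, t, hq⟩ := hz
              by_cases hqp : q = p ∧ t = s
              · obtain ⟨rfl, rfl⟩ := hqp
                have : Vx.w i q (!t) ∉ llNext (Gr m r) A (.b i q t) := by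
                  rw [mem_llNext]; simp [adj, hop q t hq]
                have := rho_pos this
                omega
              · have : Vx.w i q t ∉ llNext (Gr m r) A (.b i p s) := by
                  rw [mem_llNext]
                  simp only [adj, not_or]
                  refine ⟨hq, ?_⟩
                  rintro ⟨_, h3, h4⟩
                  exact hqp ⟨h3.symm, h4.symm⟩
                have := rho_pos this
                omega
        omega
    · intro hl; rw [mem_llNext] at hl; simpa [adj] using hl
  | e i =>
    apply main i
    · intro j hj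
      constructor
      · apply ep_congr; rw [mem_llNext]; simp [adj]
      · apply rho_congr; intro q t; rw [mem_llNext]; simp [adj]
    · have h1 : ep A i = ep (llNext (Gr m r) A (.e i)) i := by
        apply ep_congr; rw [mem_llNext]; simp [adj]
      have h2 : rho A i = rho (llNext (Gr m r) A (.e i)) i := by
        apply rho_congr; intro q t; rw [mem_llNext]; simp [adj]
      omega
    · intro hl; rw [mem_llNext] at hl; simpa [adj] using hl
  | z =>
    have h1 : ∀ j, ep A j = ep (llNext (Gr m r) A .z) j := by
      intro j; apply ep_congr; rw [mem_llNext]; simp [adj]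
    have h2 : ∀ j, rho A j = rho (llNext (Gr m r) A .z) j := by
      intro j; apply rho_congr; intro q t; rw [mem_llNext]; simp [adj]
    unfold pot
    simp only [h1, h2]
    split_ifs <;> omega
  | l =>
    have h1 : ∀ j, ep A j = ep (llNext (Gr m r) A .l) j := by
      intro j; apply ep_congr; rw [mem_llNext]; simp [adj]
    have h2 : ∀ j, rho A j = rho (llNext (Gr m r) A .l) j := by
      intro j; apply rho_congr; intro q t; rw [mem_llNext]; simp [adj]
    unfold pot
    simp only [h1, h2]
    split_ifs <;> omega

/-- Staller has a legal move that does not lower the potential. -/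
theorem staller_move (hr : 2 ≤ r) {A : Set (Vx m r)} {h : ℕ} (hI : Inv A h) (hh : h < r)
    (hp : 1 ≤ pot A) : ∃ v, llLegal (Gr m r) A v ∧ pot A ≤ pot (llNext (Gr m r) A v) := by
  classical
  by_cases hl : Vx.l ∈ A
  swap
  · refine ⟨.l, fun hsub => hl (hsub (Set.mem_insert _ _)), ?_⟩
    have h1 : ∀ j, ep A j = ep (llNext (Gr m r) A .l) j := by
      intro j; apply ep_congr; rw [mem_llNext]; simp [adj]
    have h2 : ∀ j, rho A j = rho (llNext (Gr m r) A .l) j := by
      intro j; apply rho_congr; intro q t; rw [mem_llNext]; simp [adj]
    have h3 : Vx.l ∉ llNext (Gr m r) A .l := by rw [mem_llNext]; simp [adj, hl]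
    unfold pot
    simp only [h1, h2]
    rw [if_neg hl, if_neg h3]
  · -- a move in the copy `i`
    have main : ∀ (i : Fin m) (v : Vx m r),
        (∀ j, j ≠ i → ep A j = ep (llNext (Gr m r) A v) j ∧
          rho A j = rho (llNext (Gr m r) A v) j) →
        (ep A i + rho A i ≤ ep (llNext (Gr m r) A v) i + rho (llNext (Gr m r) A v) i) →
        pot A ≤ pot (llNext (Gr m r) A v) := by
      intro i v hj hi
      unfold pot
      rw [if_pos hl]
      have h1 : ∑ j : Fin m, (ep A j + rho A j) ≤
          ∑ j : Fin m, (ep (llNext (Gr m r) A v) j + rho (llNext (Gr m r) A v) j) := by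
        apply Finset.sum_le_sum
        intro j _
        by_cases hji : j = i
        · subst hji; exact hi
        · rw [(hj j hji).1, (hj j hji).2]
      omega
    have hex : ∃ i : Fin m, 1 ≤ ep A i + rho A i := by
      by_contra hno
      push Not at hno
      have h0 : ∑ i : Fin m, (ep A i + rho A i) = 0 := by
        apply Finset.sum_eq_zero
        intro i _
        have := hno i
        omega
      unfold pot at hp
      rw [h0, if_pos hl] at hp
      omega
    obtain ⟨i, hi⟩ := hex
    by_cases he : Vx.e i ∈ A
    swap
    · refine ⟨.e i, fun hsub => he (hsub (Set.mem_insert _ _)), ?_⟩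
      apply main i
      · intro j hj
        constructor
        · apply ep_congr; rw [mem_llNext]; simp [adj]
        · apply rho_congr; intro q t; rw [mem_llNext]; simp [adj]
      · have h1 : ep A i = ep (llNext (Gr m r) A (.e i)) i := by
          apply ep_congr; rw [mem_llNext]; simp [adj]
        have h2 : rho A i = rho (llNext (Gr m r) A (.e i)) i := by
          apply rho_congr; intro q t; rw [mem_llNext]; simp [adj]
        omega
    · have hep : ep A i = 0 := by unfold ep; rw [if_pos he]
      have hb : ∀ p s, (∀ j, j ≠ i → ep A j = ep (llNext (Gr m r) A (.b i p s)) j ∧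
          rho A j = rho (llNext (Gr m r) A (.b i p s)) j) := by
        intro p s j hj
        constructor
        · apply ep_congr; rw [mem_llNext]; simp [adj, Ne.symm hj]
        · apply rho_congr; intro q t; rw [mem_llNext]; simp [adj, Ne.symm hj]
      by_cases hall : ∀ q, ∃ t, Vx.w i q t ∉ A
      · -- there is a pair with both vertices undominated
        have hfull : ∃ p, ∀ s, Vx.w i p s ∉ A := by
          by_contra hno
          push Not at hno
          choose f hf using hno
          have hfew := hI.few i hall
          have hinj : Function.Injective (fun p : Fin r => (p, f p)) := by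
            intro a b hab
            exact (Prod.mk.inj hab).1
          have hsub : (fun p : Fin r => (p, f p)) '' Set.univ ⊆
              {x : Fin r × Bool | Vx.w i x.1 x.2 ∈ A} := by
            rintro x ⟨p, _, rfl⟩
            exact hf p
          have h1 := Set.ncard_le_ncard hsub (Set.toFinite _)
          rw [Set.ncard_image_of_injective _ hinj, Set.ncard_univ, Nat.card_eq_fintype_card,
            Fintype.card_fin] at h1
          omega
        obtain ⟨p, hpf⟩ := hfull
        refine ⟨.b i p true, ?_, ?_⟩
        · intro hsub
          exact hpf true (hsub (Set.mem_insert_of_mem _ (by simp [adj])))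
        · apply main i _ (hb p true)
          have : rho (llNext (Gr m r) A (.b i p true)) i = 2 := by
            apply rho_two hr
            intro q
            obtain ⟨t, ht⟩ := hall q
            by_cases hqp : q = p
            · subst hqp
              exact ⟨false, by rw [mem_llNext]; simp [adj, hpf false]⟩
            · exact ⟨t, by rw [mem_llNext]; simp [adj, ht, Ne.symm hqp]⟩
          have := rho_le_two A i
          omega
      · have h1 := rho_le_one hall
        have hz : ¬ ∀ q t, Vx.w i q t ∈ A := by
          intro hz
          have : rho A i = 0 := by unfold rho; rw [if_pos hz]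
          omega
        push Not at hz
        obtain ⟨p, s, hps⟩ := hz
        by_cases hother : ∃ q t, Vx.w i q t ∉ A ∧ ¬ (q = p ∧ t = s)
        · obtain ⟨q, t, hqt, hne⟩ := hother
          refine ⟨.b i p s, ?_, ?_⟩
          · intro hsub
            exact hps (hsub (Set.mem_insert_of_mem _ (by simp [adj])))
          · apply main i _ (hb p s)
            have : Vx.w i q t ∉ llNext (Gr m r) A (.b i p s) := by
              rw [mem_llNext]
              simp only [adj, not_or]
              refine ⟨hqt, ?_⟩
              rintro ⟨_, h3, h4⟩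
              exact hne ⟨h3.symm, h4.symm⟩
            have := rho_pos this
            omega
        · refine ⟨.w i p s, fun hsub => hps (hsub (Set.mem_insert _ _)), ?_⟩
          apply main i
          · intro j hj
            constructor
            · apply ep_congr; rw [mem_llNext]; simp [adj]
            · apply rho_congr; intro q t; rw [mem_llNext]; simp [adj, Ne.symm hj]
          · have : Vx.w i p s ∉ llNext (Gr m r) A (.w i p s) := by
              rw [mem_llNext]; simp [adj, hps]
            have := rho_pos this
            omega

theorem ll_lower_aux (hr : 2 ≤ r) : ∀ (k : ℕ) (A : Set (Vx m r)) (h : ℕ), Inv A h → h + k < r →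
    (Ends (llLegal (Gr m r)) (llNext (Gr m r)) k true A → 2 * pot A ≤ k + 1) ∧
    (Ends (llLegal (Gr m r)) (llNext (Gr m r)) k false A → 2 * pot A ≤ k) := by
  intro k
  induction k with
  | zero =>
    intro A h hI hh
    have key : (∀ v, ¬ llLegal (Gr m r) A v) → pot A = 0 := by
      intro hno
      by_contra hne
      obtain ⟨v, hv, _⟩ := staller_move hr hI (by omega) (by omega)
      exact hno v hv
    constructor
    · intro hE; have := key hE; omega
    · intro hE; have := key hE; omega
  | succ k ih =>
    intro A h hI hh
    constructor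
    · intro hE
      rcases hE with hno | ⟨v, hv, hE⟩
      · have : pot A = 0 := by
          by_contra hne
          obtain ⟨v, hv, _⟩ := staller_move hr hI (by omega) (by omega)
          exact hno v hv
        omega
      · have h1 := (ih _ (h + 1) (inv_step hr hI v) (by omega)).2 hE
        have h2 := pot_step hr hI v
        omega
    · intro hE
      by_cases hne : pot A = 0
      · omega
      · obtain ⟨v, hv, hpv⟩ := staller_move hr hI (by omega) (by omega)
        have h1 := (ih _ (h + 1) (inv_step hr hI v) (by omega)).1 (hE v hv)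
        omega

theorem pot_empty (hr : 2 ≤ r) : pot (∅ : Set (Vx m r)) = 3 * m + 1 := by
  have h1 : ∀ i : Fin m, ep (∅ : Set (Vx m r)) i = 1 := by
    intro i; unfold ep; simp
  have h2 : ∀ i : Fin m, rho (∅ : Set (Vx m r)) i = 2 := by
    intro i; apply rho_two hr; intro p; exact ⟨true, by simp⟩
  unfold pot
  simp only [h1, h2]
  simp
  omega

theorem ll_lower : 6 * m + 1 ≤ llNumber (Gr m (6 * m + 2)) := by
  have hr : 2 ≤ 6 * m + 2 := by omega
  apply le_csInf
  · exact ⟨_, ll_finite (Gr m (6 * m + 2)) (noIso hr) _ ∅ le_rfl⟩
  · intro k hk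
    by_contra hlt
    have hI : Inv (∅ : Set (Vx m (6 * m + 2))) 0 := by
      constructor
      · intro i _ p s hp; exact absurd hp (by simp)
      · intro i _; simp
    have h1 := (ll_lower_aux hr k ∅ 0 hI (by omega)).1 hk
    rw [pot_empty hr] at h1
    omega

/-- (1) Both game numbers are attained on every finite graph without isolated vertices.
(2) There is a finite connected graph without isolated vertices whose LL-domination game number
is at least twice its Z-domination game number plus two.
(3) For every `m` there is such a graph with Z-domination game number at most `2m+1` and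
LL-domination game number at least `6m+1`. -/
theorem result :
    (∀ (V : Type) [Finite V] (G : SimpleGraph V), (∀ v, ∃ w, G.Adj v w) →
      Ends (zLegal G) (zNext G) (zNumber G) true ∅ ∧
      Ends (llLegal G) (llNext G) (llNumber G) true ∅) ∧
    (∃ (V : Type) (_ : Fintype V) (G : SimpleGraph V), G.Connected ∧ (∀ v, ∃ w, G.Adj v w) ∧
      2 * zNumber G + 2 ≤ llNumber G) ∧
    (∀ m : ℕ, ∃ (V : Type) (_ : Fintype V) (G : SimpleGraph V), G.Connected ∧
      (∀ v, ∃ w, G.Adj v w) ∧ zNumber G ≤ 2 * m + 1 ∧ 6 * m + 1 ≤ llNumber G) := by
  have hm : ∀ m : ℕ, ∃ (V : Type) (_ : Fintype V) (G : SimpleGraph V), G.Connected ∧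
      (∀ v, ∃ w, G.Adj v w) ∧ zNumber G ≤ 2 * m + 1 ∧ 6 * m + 1 ≤ llNumber G := by
    intro m
    exact ⟨Vx m (6 * m + 2), inferInstance, Gr m (6 * m + 2), conn (by omega),
      noIso (by omega), z_upper (by omega), ll_lower⟩
  refine ⟨?_, ?_, hm⟩
  · intro V _ G hG
    constructor
    · exact Nat.sInf_mem (s := {k | Ends (zLegal G) (zNext G) k true ∅})
        ⟨_, z_finite G _ ∅ true le_rfl⟩
    · exact Nat.sInf_mem (s := {k | Ends (llLegal G) (llNext G) k true ∅})
        ⟨_, ll_finite G hG _ ∅ le_rfl⟩
  · obtain ⟨V, hV, G, h1, h2, h3, h4⟩ := hm 2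
    exact ⟨V, hV, G, h1, h2, by omega⟩

end Pool.Agent.Results.MP_4d264a_co.LLGameExceedsTwiceZ
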